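import Pool.Agent.Lib.helper27.WPNT

set_option autoImplicit false
set_option linter.unusedSimpArgs false

namespace Pool.Agent.H.MP_c6faf2_co
open Finset Filter Topology Complex ArithmeticFunction Pool.Agent.Lib.helper27.WPNT

lemma Fstep {u v : ℝ} (h : u ≤ v) :
    (v - u) / ((1 + |u|) * (1 + |v|)) ≤ v / (1 + |v|) - u / (1 + |u|) := by
  have hu := abs_nonneg u
  have hv := abs_nonneg v
  rw [div_sub_div _ _ (by positivity) (by positivity), mul_comm (1 + |v|) (1 + |u|)]
  apply div_le_div_of_nonneg_right _ (by positivity)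
  rcases le_total 0 u with h1 | h1
  · rw [abs_of_nonneg h1, abs_of_nonneg (h1.trans h)]; nlinarith
  · rcases le_total 0 v with h2 | h2
    · rw [abs_of_nonpos h1, abs_of_nonneg h2]; nlinarith
    · rw [abs_of_nonpos h1, abs_of_nonpos h2]; nlinarith

lemma tail1 {η : ℝ} (hη : 0 < η) : ∃ C : ℝ, 0 ≤ C ∧ ∀ (y : ℝ) (A : Finset ℕ),
    (∀ n ∈ A, 0 < n ∧ η ≤ |Real.log n - y|) →
    ∑ n ∈ A, 1 / (n : ℝ) * (1 / (Real.log n - y) ^ 2) ≤ C := by
  set c := 2 * ((1 / η + 1) * (2 / η + 1)) with hc
  refine ⟨c * 2, by positivity, fun y A hA => ?_⟩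
  set F : ℕ → ℝ := fun n => (Real.log (n + 1) - y) / (1 + |Real.log (n + 1) - y|) with hF
  have lg : ∀ n : ℕ, Real.log (n + 1) ≤ Real.log ((n + 1 : ℕ) + 1) := fun n =>
    Real.log_le_log (by positivity) (by push_cast; linarith)
  have mono : ∀ n : ℕ, 0 ≤ F (n + 1) - F n := fun n =>
    le_trans (div_nonneg (by linarith [lg n]) (by positivity))
      (Fstep (show Real.log (n + 1) - y ≤ Real.log ((n + 1 : ℕ) + 1) - y by linarith [lg n]))
  have key : ∀ n ∈ A, 1 / (n : ℝ) * (1 / (Real.log n - y) ^ 2) ≤ c * (F (n - 1 + 1) - F (n - 1)) := by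
    intro n hn
    obtain ⟨h1, h2⟩ := hA n hn
    have n1 : (1 : ℝ) ≤ n := by exact_mod_cast h1
    have e1 : ((n - 1 : ℕ) : ℝ) + 1 = n := by rw [Nat.cast_sub h1]; simp
    have e2 : n - 1 + 1 = n := by omega
    simp only [hF, e1, e2]
    have l1 : Real.log (n + 1) - Real.log n ≤ 1 := by
      rw [← Real.log_div (by positivity) (by positivity)]
      refine (Real.log_le_sub_one_of_pos (by positivity)).trans ?_
      rw [sub_le_iff_le_add, div_le_iff₀ (by positivity)]; linarith
    have l2 : 1 / (2 * n) ≤ Real.log (n + 1) - Real.log n := by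
      rw [← Real.log_div (by positivity) (by positivity)]
      refine le_trans ?_ (Real.one_sub_inv_le_log_of_pos (by positivity))
      rw [inv_div, le_sub_iff_add_le, div_add_div _ _ (by positivity) (by positivity),
        div_le_one (by positivity)]
      nlinarith
    have l3 : (0 : ℝ) < 1 / (2 * n) := by positivity
    refine le_trans ?_ (mul_le_mul_of_nonneg_left
      (Fstep (show Real.log n - y ≤ Real.log (n + 1) - y by linarith)) (by positivity))
    set u := Real.log n - y
    have u0 : 0 < |u| := hη.trans_le h2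
    have l4 : |Real.log (n + 1) - y| ≤ |u| + 1 := by
      have : Real.log (n + 1) - y = u + (Real.log (n + 1) - Real.log n) := by ring
      rw [this]
      exact (abs_add_le _ _).trans (by rw [abs_of_nonneg (by linarith : 0 ≤ Real.log (n + 1) - Real.log n)]; linarith)
    have l5 : 1 ≤ |u| / η := by rw [le_div_iff₀ hη]; linarith
    have l6 : (1 + |u|) * (1 + |Real.log (n + 1) - y|) ≤ (1 / η + 1) * (2 / η + 1) * u ^ 2 := by
      calc _ ≤ (|u| / η + |u|) * (2 * (|u| / η) + |u|) :=
            mul_le_mul (by linarith) (by linarith) (by positivity) (by positivity)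
        _ = _ := by rw [← sq_abs u]; ring
    have u2 : 0 < u ^ 2 := by rw [← sq_abs]; positivity
    calc _ = c * ((1 / (2 * n)) / ((1 / η + 1) * (2 / η + 1) * u ^ 2)) := by
          rw [hc]; field_simp
      _ ≤ _ := mul_le_mul_of_nonneg_left (div_le_div₀ (by linarith) (by linarith)
          (by positivity) l6) (by positivity)
  refine (sum_le_sum key).trans ?_
  rw [← mul_sum]
  gcongr
  obtain ⟨N, hN⟩ := A.exists_nat_subset_range
  have inj : Set.InjOn (fun n : ℕ => n - 1) A := fun a ha b hb e => by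
    have := (hA a ha).1; have := (hA b hb).1; simp only at e; omega
  rw [← sum_image (f := fun m => F (m + 1) - F m) inj]
  refine (sum_le_sum_of_subset_of_nonneg (t := range N) (fun m hm => ?_) (fun m _ _ => mono m)).trans ?_
  · obtain ⟨a, ha, rfl⟩ := mem_image.mp hm
    have := mem_range.mp (hN ha)
    exact mem_range.mpr (by omega)
  rw [sum_range_sub]
  have b : ∀ u : ℝ, |u / (1 + |u|)| ≤ 1 := fun u => by
    rw [abs_div, abs_of_nonneg (by positivity : 0 ≤ 1 + |u|), div_le_one (by positivity)]; linarith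
  have b1 := abs_le.mp (b (Real.log (N + 1) - y))
  have b2 := abs_le.mp (b (Real.log ((0 : ℕ) + 1) - y))
  simp only [hF]
  linarith

/-- remainder of the telescoping weights -/
noncomputable def rem (n : ℕ) (s : ℂ) : ℂ :=
  (n : ℂ) ^ (-s) - ((n : ℂ) + 1) ^ (-s) - s * (n : ℂ) ^ (-s - 1)

lemma rem_le {n : ℕ} (hn : 0 < n) {s : ℂ} (hs : 1 ≤ s.re) :
    ‖rem n s‖ ≤ ‖s‖ * ‖s + 1‖ * (1 / (n : ℝ) ^ 3) := by
  have n1 : (1 : ℝ) ≤ n := by exact_mod_cast hn
  have s0 : -s ≠ 0 := fun e => by rw [neg_eq_zero] at e; rw [e] at hs; simp at hs; linarith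
  have s1 : -s - 1 ≠ 0 := fun e => by
    have := congrArg re e; simp at this; linarith
  have h1 := norm_image_sub_le_of_norm_deriv_le_segment' (a := (n : ℝ)) (b := n + 1)
    (f := fun x : ℝ => (x : ℂ) ^ (-s - 1)) (f' := fun x : ℝ => (-s - 1) * (x : ℂ) ^ (-s - 1 - 1))
    (C := ‖s + 1‖ * (1 / (n : ℝ) ^ 3))
    (fun x hx => (hasDerivAt_ofReal_cpow_const (by linarith [hx.1]) s1).hasDerivWithinAt)
    (fun x hx => by
      rw [norm_mul, show -s - 1 = -(s + 1) by ring, norm_neg,
        norm_cpow_eq_rpow_re_of_pos (by linarith [hx.1])]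
      gcongr
      calc x ^ (-(s + 1) - 1).re ≤ x ^ (-3 : ℝ) :=
            Real.rpow_le_rpow_of_exponent_le (by linarith [hx.1]) (by simp; linarith)
        _ ≤ (n : ℝ) ^ (-3 : ℝ) := Real.rpow_le_rpow_of_nonpos (by linarith) hx.1 (by norm_num)
        _ = _ := by rw [Real.rpow_neg (by linarith), one_div]; norm_cast)
  have h2 := norm_image_sub_le_of_norm_deriv_le_segment' (a := (n : ℝ)) (b := n + 1)
    (f := fun x : ℝ => (x : ℂ) ^ (-s) + s * (n : ℂ) ^ (-s - 1) * x)
    (f' := fun x : ℝ => (-s) * (x : ℂ) ^ (-s - 1) + s * (n : ℂ) ^ (-s - 1))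
    (C := ‖s‖ * ‖s + 1‖ * (1 / (n : ℝ) ^ 3))
    (fun x hx => by
      refine (((hasDerivAt_ofReal_cpow_const (by linarith [hx.1]) s0).add
        ((hasDerivAt_id x).ofReal_comp.const_mul (s * (n : ℂ) ^ (-s - 1)))).congr_deriv
        (by simp)).hasDerivWithinAt)
    (fun x hx => by
      have := h1 x ⟨hx.1, hx.2.le⟩
      rw [show -s * (x : ℂ) ^ (-s - 1) + s * (n : ℂ) ^ (-s - 1) =
        -s * ((x : ℂ) ^ (-s - 1) - ((n : ℝ) : ℂ) ^ (-s - 1)) by push_cast; ring, norm_mul, norm_neg,
        mul_assoc]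
      gcongr
      exact this.trans (mul_le_of_le_one_right (by positivity) (by linarith [hx.2])))
    (n + 1) ⟨by linarith, le_rfl⟩
  rw [add_sub_cancel_left, mul_one] at h2
  refine le_trans (le_of_eq ?_) h2
  rw [← norm_neg]
  congr 1
  unfold rem
  push_cast
  ring

/-- the normalised Chebyshev function -/
noncomputable def av (n : ℕ) : ℝ := Chebyshev.psi n / n

lemma av_bd (n : ℕ) : 0 ≤ av n ∧ av n ≤ Real.log 4 + 4 := by
  have := Real.log_nonneg (show (1 : ℝ) ≤ 4 by norm_num)
  refine ⟨div_nonneg (Chebyshev.psi_nonneg _) (by positivity), ?_⟩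
  exact div_le_of_le_mul₀ (by positivity) (by positivity)
    (Chebyshev.psi_le_const_mul_self (by positivity))

lemma psi_succ (n : ℕ) : Chebyshev.psi (n + 1 : ℕ) = Chebyshev.psi n + Λ (n + 1) := by
  simp only [Chebyshev.psi, Nat.floor_natCast]
  rw [sum_Ioc_succ_top (Nat.zero_le n)]

/-- scaled remainder -/
noncomputable def rr (n : ℕ) (s : ℂ) : ℂ := Chebyshev.psi n * rem n s / (s * (s + 1))

lemma rr_le (n : ℕ) {s : ℂ} (hs : 1 ≤ s.re) : ‖rr n s‖ ≤ (Real.log 4 + 4) * (1 / (n : ℝ) ^ 2) := by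
  have := Real.log_nonneg (show (1 : ℝ) ≤ 4 by norm_num)
  rcases Nat.eq_zero_or_pos n with rfl | hn
  · simp [rr]
  have s0 : s ≠ 0 := fun e => by rw [e] at hs; simp at hs; linarith
  have s1 : s + 1 ≠ 0 := fun e => by
    have := congrArg re e; simp at this; linarith
  have h1 := Chebyshev.psi_le_const_mul_self (x := n) (by positivity)
  unfold rr
  rw [norm_div, norm_mul, norm_mul, norm_real, Real.norm_of_nonneg (Chebyshev.psi_nonneg _),
    div_le_iff₀ (by positivity)]
  calc _ ≤ (Real.log 4 + 4) * n * (‖s‖ * ‖s + 1‖ * (1 / (n : ℝ) ^ 3)) := by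
        gcongr; exact rem_le hn hs
    _ = _ := by field_simp

lemma rr_sum : Summable (fun n : ℕ => (Real.log 4 + 4) * (1 / (n : ℝ) ^ 2)) :=
  (Real.summable_one_div_nat_pow.mpr (by norm_num)).mul_left _

lemma rr_cont : ContinuousOn (fun s => ∑' n, rr n s) {s : ℂ | 1 ≤ s.re} := by
  refine continuousOn_tsum (fun n => ?_) rr_sum (fun n s hs => rr_le n hs)
  rcases Nat.eq_zero_or_pos n with rfl | hn
  · have : rr 0 = fun _ => 0 := by ext s; simp [rr]
    rw [this]
    exact continuousOn_const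
  have n0 : (n : ℂ) ≠ 0 := by exact_mod_cast hn.ne'
  have n1 : (n : ℂ) + 1 ≠ 0 := by exact_mod_cast (show n + 1 ≠ 0 by omega)
  refine ContinuousOn.div (Continuous.continuousOn ?_) (by fun_prop) (fun s hs => ?_)
  · unfold rem
    exact continuous_const.mul (((continuous_neg.const_cpow (Or.inl n0)).sub
      (continuous_neg.const_cpow (Or.inl n1))).sub (continuous_id.mul
      ((continuous_neg.sub continuous_const).const_cpow (Or.inl n0))))
  · have hs' : 1 ≤ s.re := hs
    refine mul_ne_zero (fun e => ?_) (fun e => ?_)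
    · rw [e] at hs'; simp at hs'; linarith
    · have := congrArg re e; simp at this; linarith

lemma av_summ {s : ℂ} (hs : 1 < s.re) : LSeriesSummable (fun n => (av n : ℂ)) s :=
  LSeriesSummable_of_bounded_of_one_lt_re (m := Real.log 4 + 4)
    (fun n _ => by rw [norm_real, Real.norm_of_nonneg (av_bd n).1]; exact (av_bd n).2) hs

lemma av_L {s : ℂ} (hs : 1 < s.re) : s * LSeries (fun n => (av n : ℂ)) s +
    s * (s + 1) * ∑' n, rr n s = LSeries (fun n => (Λ n : ℂ)) s := by
  have s0 : s ≠ 0 := fun e => by rw [e] at hs; simp at hs; linarith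
  have s1 : s + 1 ≠ 0 := fun e => by
    have := congrArg re e; simp at this; linarith
  have h1 := ((av_summ hs).hasSum.mul_left s).add
    ((Summable.of_norm_bounded rr_sum (fun n => rr_le n hs.le)).hasSum.mul_left (s * (s + 1)))
  have h2 := (LSeriesSummable_vonMangoldt hs).hasSum.tendsto_sum_nat.comp (tendsto_add_atTop_nat 1)
  have h3 : Tendsto (fun N : ℕ => (Chebyshev.psi N : ℂ) * ((N : ℂ) + 1) ^ (-s)) atTop (𝓝 0) := by
    have t := ((tendsto_rpow_neg_atTop (show 0 < s.re - 1 by linarith)).comp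
      (tendsto_atTop_add_const_right _ 1 tendsto_natCast_atTop_atTop)).const_mul (Real.log 4 + 4)
    rw [mul_zero] at t
    refine squeeze_zero_norm (fun N => ?_) t
    have := Real.log_nonneg (show (1 : ℝ) ≤ 4 by norm_num)
    have e : (N : ℂ) + 1 = (((N : ℝ) + 1 : ℝ) : ℂ) := by push_cast; rfl
    rw [norm_mul, norm_real, Real.norm_of_nonneg (Chebyshev.psi_nonneg _), e,
      norm_cpow_eq_rpow_re_of_pos (by positivity)]
    calc _ ≤ (Real.log 4 + 4) * ((N : ℝ) + 1) * ((N : ℝ) + 1) ^ (-s).re := by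
          gcongr
          exact (Chebyshev.psi_le_const_mul_self (by positivity)).trans (by gcongr; linarith)
      _ = _ := by
          simp only [Function.comp, neg_re]
          rw [mul_assoc, neg_sub, sub_eq_add_neg, Real.rpow_add (by positivity), Real.rpow_one]
  have e : ∀ n : ℕ, s * LSeries.term (fun n => (av n : ℂ)) s n + s * (s + 1) * rr n s =
      Chebyshev.psi n * ((n : ℂ) ^ (-s) - ((n : ℂ) + 1) ^ (-s)) := by
    intro n
    rcases Nat.eq_zero_or_pos n with rfl | hn
    · simp [rr]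
    have n0 : (n : ℂ) ≠ 0 := by exact_mod_cast hn.ne'
    rw [LSeries.term_of_ne_zero hn.ne']
    unfold rr rem av
    rw [cpow_sub _ _ n0, cpow_one, div_eq_mul_inv _ ((n : ℂ) ^ s), ← cpow_neg]
    push_cast
    field_simp
    ring
  simp only [e] at h1
  have h4 := h2.sub h3
  rw [sub_zero] at h4
  refine tendsto_nhds_unique (h1.tendsto_sum_nat.comp (tendsto_add_atTop_nat 1)) (h4.congr fun N => ?_)
  simp only [Function.comp]
  induction N with
  | zero => simp
  | succ N ih =>
    rw [sum_range_succ _ (N + 1), sum_range_succ _ (N + 1), ← ih, psi_succ,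
      LSeries.term_of_ne_zero (by omega), div_eq_mul_inv, ← cpow_neg]
    push_cast
    ring

lemma av_kernel {T : ℝ} (hT : 0 ≤ T) : ∃ δ > 0, ∃ y0 : ℝ, ∀ σ y : ℝ, 1 < σ → σ ≤ 1 + δ → y0 ≤ y →
    |SK av T σ y - 1 * SK (fun _ => 1) T σ y| ≤ 1 := by
  refine kernel_limit av 1 (fun σ hσ => av_summ (by simpa using hσ))
    (fun s => vonMangoldt.LFunctionResidueClassAux (1 : ZMod 1) s / s - 1 / s - (s + 1) * ∑' n, rr n s)
    ?_ (fun s hs => ?_) hT one_pos
  · have z : ∀ s ∈ {s : ℂ | 1 ≤ s.re}, s ≠ 0 := fun s hs e => by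
      have hs' : 1 ≤ s.re := hs
      rw [e] at hs'; simp at hs'; linarith
    exact (((vonMangoldt.continuousOn_LFunctionResidueClassAux _).div continuousOn_id z).sub
      (continuousOn_const.div continuousOn_id z)).sub (ContinuousOn.mul (by fun_prop) rr_cont)
  · have s0 : s ≠ 0 := fun e => by rw [e] at hs; simp at hs; linarith
    have s1 : s - 1 ≠ 0 := fun e => by
      have := congrArg re e; simp at this; linarith
    have e : (fun n => ((vonMangoldt.residueClass (1 : ZMod 1) n : ℝ) : ℂ)) = fun n => (Λ n : ℂ) := by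
      ext n
      rw [vonMangoldt.residueClass, Set.indicator_of_mem (by exact Subsingleton.elim _ _)]
    rw [vonMangoldt.eqOn_LFunctionResidueClassAux isUnit_one hs]
    simp only [e, ← av_L hs, Nat.totient_one, Nat.cast_one, inv_one, ofReal_one]
    field_simp
    ring

lemma sk_cmp {η : ℝ} (hη : 0 < η) : ∃ C : ℝ, 0 ≤ C ∧ ∀ (T σ y : ℝ), 0 ≤ T → 1 < σ →
    ∀ (a b : ℕ → ℝ) (B : ℝ), 0 ≤ B → (∀ n, 0 ≤ a n ∧ a n ≤ B) → (∀ n, 0 ≤ b n ∧ b n ≤ B) →
    (∀ n : ℕ, 0 < n → |Real.log n - y| < η → a n ≤ b n) → SK a T σ y ≤ SK b T σ y + B * C := by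
  obtain ⟨C, hC, h⟩ := tail1 hη
  refine ⟨2 * C, by positivity, fun T σ y hT hσ a b B hB ha hb hab => ?_⟩
  have sb : Summable (fun n : ℕ => b n * (n : ℝ) ^ (-σ) * kern T (Real.log n - y)) :=
    (hasSum_kern b (by linarith) (LSeriesSummable_of_bounded_of_one_lt_real (m := B)
      (fun n _ => by rw [norm_real, Real.norm_of_nonneg (hb n).1]; exact (hb n).2) hσ) hT y).summable
  have pos : ∀ (c : ℝ) (n : ℕ), 0 ≤ c → 0 ≤ c * (n : ℝ) ^ (-σ) * kern T (Real.log n - y) :=
    fun c n hc => mul_nonneg (mul_nonneg hc (by positivity)) (kern_nonneg _)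
  apply Real.tsum_le_of_sum_le (fun n => pos _ n (ha n).1)
  intro A
  rw [← sum_filter_add_sum_filter_not A (fun n : ℕ => 0 < n ∧ η ≤ |Real.log n - y|), add_comm]
  apply add_le_add
  · refine le_trans (sum_le_sum fun n hn => ?_) (sb.sum_le_tsum _ (fun n _ => pos _ n (hb n).1))
    rcases Nat.eq_zero_or_pos n with rfl | n0
    · simp [Real.zero_rpow (show -σ ≠ 0 by linarith)]
    have := hab n n0 (lt_of_not_ge fun e => (mem_filter.mp hn).2 ⟨n0, e⟩)
    exact mul_le_mul_of_nonneg_right (mul_le_mul_of_nonneg_right this (by positivity))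
      (kern_nonneg _)
  · refine le_trans ?_ (mul_le_mul_of_nonneg_left (mul_le_mul_of_nonneg_left
      (h y (A.filter (fun n : ℕ => 0 < n ∧ η ≤ |Real.log n - y|)) (fun n hn => (mem_filter.mp hn).2))
      (by norm_num : (0 : ℝ) ≤ 2)) hB)
    rw [mul_sum, mul_sum]
    apply sum_le_sum
    intro n hn
    obtain ⟨a1, a2⟩ := (mem_filter.mp hn).2
    have a3 : Real.log n - y ≠ 0 := fun e => by rw [e, abs_zero] at a2; linarith
    have k : (n : ℝ) ^ (-σ) ≤ 1 / n := by
      rw [one_div, ← Real.rpow_neg_one]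
      exact Real.rpow_le_rpow_of_exponent_le (by exact_mod_cast a1) (by linarith)
    calc _ ≤ B * (1 / n) * (2 / (Real.log n - y) ^ 2) :=
          mul_le_mul (mul_le_mul (ha n).2 k (by positivity) hB)
            (kern_le' T a3) (kern_nonneg _) (by positivity)
      _ = _ := by ring

lemma SK_const (c T σ y : ℝ) : SK (fun _ => c) T σ y = c * SK (fun _ => 1) T σ y := by
  unfold SK
  rw [← tsum_mul_left]
  exact tsum_congr fun n => by ring

lemma pnt_win {η ε : ℝ} (hη : 0 < η) (hε : 0 < ε) (hε1 : ε ≤ 1) : ∃ y0 : ℝ, ∀ y, y0 ≤ y →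
    Chebyshev.psi (Real.exp (y - η)) ≤ (1 + ε) * Real.exp (y + η) ∧
    (1 - ε) * Real.exp (y - η) ≤ Chebyshev.psi (Real.exp (y + η)) := by
  obtain ⟨C, hC, h1⟩ := sk_cmp hη
  have l4 := Real.log_nonneg (show (1 : ℝ) ≤ 4 by norm_num)
  set B := Real.log 4 + 4 with hB
  set T := 1 + 8 * Real.exp 2 * (B * C + 2) / ε with hT
  have hT1 : 1 ≤ T := le_add_of_nonneg_right (by positivity)
  obtain ⟨δ, hδ, y0, h2⟩ := av_kernel (by linarith : 0 ≤ T)
  refine ⟨max y0 (max (1 / δ) (2 * T)), fun y hy => ?_⟩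
  have y1 : y0 ≤ y := (le_max_left _ _).trans hy
  have y2 : 1 / δ ≤ y := ((le_max_left _ _).trans (le_max_right _ _)).trans hy
  have y3 : 2 * T ≤ y := ((le_max_right _ _).trans (le_max_right _ _)).trans hy
  have s1 : 1 < 1 + 1 / (y + 1) := lt_add_of_pos_right _ (by apply one_div_pos.mpr; linarith)
  have s2 : 1 / (y + 1) ≤ δ := by
    rw [div_le_iff₀ hδ] at y2
    rw [div_le_iff₀ (by linarith)]; nlinarith
  have h3 := abs_le.mp (h2 (1 + 1 / (y + 1)) y s1 (by linarith) y1)
  have h4 := SK_one_ge hT1 s1 (y := y) (by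
    rw [add_sub_cancel_left, one_div_mul_cancel (by linarith)])
    (by linarith [Real.add_one_le_exp y])
  have h6 : B * C + 2 ≤ ε * (T / (8 * Real.exp 2)) := by
    rw [hT, ← mul_div_assoc, le_div_iff₀ (by positivity), mul_add, mul_div_cancel₀ _ hε.ne']
    linarith
  have h7 := mul_le_mul_of_nonneg_left h4 hε.le
  have win : ∀ n : ℕ, 0 < n → |Real.log n - y| < η →
      Real.exp (y - η) ≤ n ∧ n ≤ Real.exp (y + η) := fun n hn h => by
    have n0 : (0 : ℝ) < n := by exact_mod_cast hn
    have := abs_lt.mp h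
    exact ⟨(Real.le_log_iff_exp_le n0).mp (by linarith), (Real.log_le_iff_le_exp n0).mp (by linarith)⟩
  constructor
  · by_contra hc
    push Not at hc
    have h5 := h1 T _ y (by linarith) s1 (fun _ => 1 + ε) av B (by linarith)
      (fun n => ⟨by linarith, by linarith⟩) av_bd (fun n hn h => by
        obtain ⟨w1, w2⟩ := win n hn h
        unfold av
        rw [le_div_iff₀ (by exact_mod_cast hn)]
        exact (mul_le_mul_of_nonneg_left w2 (by linarith)).trans (hc.le.trans (Chebyshev.psi_mono w1)))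
    rw [SK_const] at h5
    nlinarith
  · by_contra hc
    push Not at hc
    have h5 := h1 T _ y (by linarith) s1 av (fun _ => 1 - ε) B (by linarith) av_bd
      (fun n => ⟨by linarith, by linarith⟩) (fun n hn h => by
        obtain ⟨w1, w2⟩ := win n hn h
        unfold av
        rw [div_le_iff₀ (by exact_mod_cast hn)]
        exact (Chebyshev.psi_mono w2).trans (hc.le.trans (mul_le_mul_of_nonneg_left w1 (by linarith))))
    rw [SK_const] at h5
    nlinarith

/-- the prime number theorem -/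
theorem pnt_psi : Tendsto (fun x : ℝ => Chebyshev.psi x / x) atTop (𝓝 1) := by
  rw [Metric.tendsto_atTop]
  intro e he
  have c : ContinuousAt (fun t : ℝ => ((1 + t) * Real.exp (2 * t), (1 - t) * Real.exp (-(2 * t)))) 0 := by
    fun_prop
  obtain ⟨d, hd, h⟩ := Metric.continuousAt_iff.mp c e he
  have t0 : 0 < min (d / 2) 1 := by positivity
  have t1 := min_le_left (d / 2) 1
  have h1 := h (x := min (d / 2) 1) (by rw [dist_zero_right, Real.norm_of_nonneg t0.le]; linarith)
  set t := min (d / 2) 1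
  simp only [mul_zero, neg_zero, Real.exp_zero, add_zero, sub_zero, mul_one, Prod.dist_eq,
    max_lt_iff, Real.dist_eq, abs_lt] at h1
  obtain ⟨y0, h2⟩ := pnt_win t0 t0 (min_le_right _ _)
  refine ⟨Real.exp (y0 + t), fun x hx => ?_⟩
  have x0 : 0 < x := (Real.exp_pos _).trans_le hx
  have x1 := (Real.le_log_iff_exp_le x0).mpr hx
  have a := (h2 (Real.log x + t) (by linarith)).1
  have b := (h2 (Real.log x - t) (by linarith)).2
  rw [add_sub_cancel_right, add_assoc, Real.exp_add, Real.exp_log x0, ← two_mul] at a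
  rw [sub_add_cancel, sub_sub, sub_eq_add_neg (Real.log x), Real.exp_add, Real.exp_log x0,
    ← two_mul] at b
  rw [Real.dist_eq, abs_lt, lt_sub_iff_add_lt, sub_lt_iff_lt_add, lt_div_iff₀ x0, div_lt_iff₀ x0]
  constructor <;> nlinarith [h1.1.2, h1.2.1]

theorem pnt_theta : Tendsto (fun x : ℝ => Chebyshev.theta x / x) atTop (𝓝 1) := by
  have h : Tendsto (fun x : ℝ => (Chebyshev.psi x - Chebyshev.theta x) / x) atTop (𝓝 0) := by
    refine (Chebyshev.isBigO_psi_sub_theta_sqrt.trans_isLittleO ?_).tendsto_div_nhds_zero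
    exact (Asymptotics.isLittleO_iff_tendsto (fun x hx => by rw [hx, Real.sqrt_zero])).mpr
      (Real.tendsto_sqrt_atTop.inv_tendsto_atTop.congr fun x => Real.sqrt_div_self.symm)
  have := pnt_psi.sub h
  rw [sub_zero] at this
  exact this.congr fun x => by ring

theorem pnt_pi : Tendsto (fun x : ℝ => (Nat.primeCounting ⌊x⌋₊ : ℝ) * Real.log x / x) atTop (𝓝 1) := by
  obtain ⟨C, hC⟩ := Chebyshev.primeCounting_sub_theta_div_log_isBigO.bound
  have h : Tendsto (fun x : ℝ => (Nat.primeCounting ⌊x⌋₊ : ℝ) * Real.log x / x -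
      Chebyshev.theta x / x) atTop (𝓝 0) := by
    have t := Real.tendsto_log_atTop.inv_tendsto_atTop.const_mul C
    rw [mul_zero] at t
    refine squeeze_zero_norm' ?_ t
    filter_upwards [hC, eventually_gt_atTop 1] with x h1 h2
    have l := Real.log_pos h2
    rw [Real.norm_of_nonneg (by positivity : 0 ≤ x / Real.log x ^ 2)] at h1
    have e : (Nat.primeCounting ⌊x⌋₊ : ℝ) * Real.log x / x - Chebyshev.theta x / x =
      (Nat.primeCounting ⌊x⌋₊ - Chebyshev.theta x / Real.log x) * (Real.log x / x) := by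
      field_simp
    rw [e, norm_mul, Real.norm_of_nonneg (by positivity : 0 ≤ Real.log x / x)]
    refine (mul_le_mul_of_nonneg_right h1 (by positivity)).trans (le_of_eq ?_)
    simp only [Pi.inv_apply]
    field_simp
  have := h.add pnt_theta
  rw [zero_add] at this
  exact this.congr fun x => by ring

/-- the primes as reals, `pr 0 = 2` -/
noncomputable def pr (k : ℕ) : ℝ := Nat.nth Nat.Prime k

lemma pr_ge (k : ℕ) : (k : ℝ) + 2 ≤ pr k := by
  unfold pr; exact_mod_cast Nat.add_two_le_nth_prime k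

lemma pr_top : Tendsto pr atTop atTop :=
  tendsto_atTop_mono (fun k => by linarith [pr_ge k]) tendsto_natCast_atTop_atTop

lemma pr_1 : Tendsto (fun k : ℕ => ((k : ℝ) + 1) * Real.log (pr k) / pr k) atTop (𝓝 1) := by
  refine (pnt_pi.comp pr_top).congr fun k => ?_
  have : Nat.primeCounting (Nat.nth Nat.Prime k) = k + 1 := by
    rw [Nat.primeCounting, Nat.primeCounting', Nat.count_succ, if_pos (Nat.prime_nth_prime k)]
    congr 1
    exact Nat.primeCounting'_nth_eq k
  simp only [Function.comp, pr, Nat.floor_natCast, this]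
  push_cast; rfl

lemma pr_log : Tendsto (fun k : ℕ => Real.log ((k : ℝ) + 1) / Real.log (pr k)) atTop (𝓝 1) := by
  have l := Real.tendsto_log_atTop.comp pr_top
  have h1 := (pr_1.log one_ne_zero).mul l.inv_tendsto_atTop
  have h2 := Real.isLittleO_log_id_atTop.tendsto_div_nhds_zero.comp l
  have h3 := (h1.sub h2).add_const 1
  simp only [mul_zero, sub_zero, zero_add] at h3
  refine h3.congr fun k => ?_
  have p := pr_ge k
  have k0 : (0 : ℝ) ≤ k := by positivity
  have q := Real.log_pos (show 1 < pr k by linarith)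
  simp only [Function.comp, Pi.inv_apply, id]
  rw [Real.log_div (by positivity) (by linarith), Real.log_mul (by positivity) q.ne']
  field_simp
  ring

theorem pr_asymp : Tendsto (fun k : ℕ => ((k : ℝ) + 1) * Real.log ((k : ℝ) + 1) / pr k) atTop (𝓝 1) := by
  have := pr_1.mul pr_log
  rw [mul_one] at this
  refine this.congr fun k => ?_
  have p := pr_ge k
  have k0 : (0 : ℝ) ≤ k := by positivity
  have q := Real.log_pos (show 1 < pr k by linarith)
  field_simp

end Pool.Agent.H.MP_c6faf2_co
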