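import Pool.Agent.H.MP_c6faf2_co.A

set_option autoImplicit false
set_option linter.unusedSimpArgs false

namespace Pool.Agent.H.MP_c6faf2_co
open Finset Filter Topology Real

/-- minus log of one minus x -/
noncomputable def hh (x : ℝ) : ℝ := -log (1 - x)

lemma hh_ge {x : ℝ} (h : x < 1) : x ≤ hh x := by
  have := log_le_sub_one_of_pos (show 0 < 1 - x by linarith)
  unfold hh; linarith

lemma hh_le {x : ℝ} (h : x < 1) : hh x ≤ x / (1 - x) := by
  have h0 : 0 < 1 - x := by linarith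
  have := one_sub_inv_le_log_of_pos h0
  have e : x / (1 - x) = (1 - x)⁻¹ - 1 := by field_simp; ring
  unfold hh; linarith

lemma hh_mul_le {t x : ℝ} (t0 : 0 ≤ t) (t1 : t ≤ 1) (h : x < 1) : hh (t * x) ≤ t * hh x := by
  have := strictConcaveOn_log_Ioi.concaveOn.2 (show 1 - x ∈ Set.Ioi (0 : ℝ) by simpa using h)
    (show (1 : ℝ) ∈ Set.Ioi (0 : ℝ) by simp) t0 (show 0 ≤ 1 - t by linarith) (by ring)
  simp only [smul_eq_mul, log_one, mul_zero, add_zero, mul_one] at this
  rw [show t * (1 - x) + (1 - t) = 1 - t * x by ring] at this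
  unfold hh; linarith

lemma hh_mul_ge {t x : ℝ} (t1 : t ≤ 1) (x0 : 0 ≤ x) (h : x ≤ 1 / 2) :
    t * hh x ≤ hh (t * x) + 2 * (1 - t) * x ^ 2 := by
  have h0 : 0 < 1 - x := by linarith
  have h1 : 0 < 1 - t * x := by nlinarith
  have a := log_le_sub_one_of_pos (div_pos h1 h0)
  rw [log_div h1.ne' h0.ne'] at a
  have b := mul_le_mul_of_nonneg_left (hh_ge (show x < 1 by linarith)) (show 0 ≤ 1 - t by linarith)
  have c : (1 - t * x) / (1 - x) - 1 ≤ (1 - t) * x + 2 * (1 - t) * x ^ 2 := by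
    rw [sub_le_iff_le_add, div_le_iff₀ h0]
    nlinarith [mul_nonneg (mul_nonneg (show 0 ≤ 1 - t by linarith) (sq_nonneg x))
      (show 0 ≤ 1 - 2 * x by linarith)]
  unfold hh at *
  nlinarith

/-- block ends -/
noncomputable def EE (m : ℕ) : ℕ := ⌊exp m⌋₊

lemma EE_zero : EE 0 = 1 := by simp [EE]

lemma EE_mono : Monotone EE := fun _ _ h => Nat.floor_mono (exp_le_exp.mpr (by exact_mod_cast h))

lemma EE_pos (m : ℕ) : 1 ≤ EE m := EE_zero ▸ EE_mono (Nat.zero_le m)

lemma EE_top : Tendsto EE atTop atTop :=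
  tendsto_nat_floor_atTop.comp (tendsto_exp_atTop.comp tendsto_natCast_atTop_atTop)

lemma EE_mem {m n : ℕ} (h : n ∈ Ioc (EE m) (EE (m + 1))) :
    (m : ℝ) + 1 ≤ n ∧ m ≤ log n ∧ log n ≤ m + 1 := by
  rw [mem_Ioc, EE, EE, Nat.floor_lt (exp_pos _).le, Nat.le_floor_iff (exp_pos _).le] at h
  have n0 : (0 : ℝ) < n := (exp_pos _).trans h.1
  exact ⟨by linarith [add_one_le_exp (m : ℝ)], (le_log_iff_exp_le n0).mpr h.1.le,
    (log_le_iff_le_exp n0).mpr (by exact_mod_cast h.2)⟩

lemma blocks (f : ℕ → ℝ) (M : ℕ) :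
    ∑ m ∈ range M, ∑ n ∈ Ioc (EE m) (EE (m + 1)), f n = ∑ n ∈ Ioc 1 (EE M), f n := by
  induction M with
  | zero => simp [EE_zero]
  | succ M ih => rw [sum_range_succ, ih, sum_Ioc_consecutive _ (EE_pos M) (EE_mono (by omega))]

lemma harm_eq (N : ℕ) : ∑ n ∈ Ioc 0 N, 1 / (n : ℝ) = harmonic N := by
  induction N with
  | zero => simp
  | succ N ih => rw [sum_Ioc_succ_top (Nat.zero_le N), ih, harmonic_succ]; simp

lemma harm_block : Tendsto (fun m => ∑ n ∈ Ioc (EE m) (EE (m + 1)), 1 / (n : ℝ)) atTop (𝓝 1) := by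
  have h1 : Tendsto (fun m : ℕ => log (EE m) - m) atTop (𝓝 0) := by
    have := ((tendsto_nat_floor_div_atTop (R := ℝ)).comp
      (tendsto_exp_atTop.comp tendsto_natCast_atTop_atTop)).log one_ne_zero
    rw [log_one] at this
    refine this.congr fun m => ?_
    have : (1 : ℝ) ≤ EE m := by exact_mod_cast EE_pos m
    simp only [Function.comp]
    rw [log_div (by unfold EE at this; linarith) (exp_pos _).ne', log_exp]; rfl
  have h2 := (tendsto_harmonic_sub_log.comp EE_top).add h1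
  have h3 := ((h2.comp (tendsto_add_atTop_nat 1)).sub h2).add_const 1
  rw [sub_self, zero_add] at h3
  refine h3.congr fun m => ?_
  have := sum_Ioc_consecutive (fun n : ℕ => 1 / (n : ℝ)) (Nat.zero_le (EE m))
    (EE_mono (show m ≤ m + 1 by omega))
  rw [harm_eq, harm_eq] at this
  simp only [Function.comp]
  push_cast
  linarith

/-- log on primes -/
noncomputable def lp (n : ℕ) : ℝ := if n.Prime then log n else 0

lemma theta_succ (n : ℕ) : Chebyshev.theta (n + 1 : ℕ) = Chebyshev.theta n + lp (n + 1) := by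
  simp only [Chebyshev.theta, Nat.floor_natCast, sum_filter]
  rw [sum_Ioc_succ_top (Nat.zero_le n)]; rfl

lemma abel {ε : ℝ} {X : ℕ} (hX : 1 ≤ X) (h : ∀ n : ℕ, X ≤ n → |Chebyshev.theta n / n - 1| ≤ ε)
    (Y : ℕ) (hY : X ≤ Y) : |∑ n ∈ Ioc X Y, lp n / n - ∑ n ∈ Ioc X Y, 1 / (n : ℝ) -
      Chebyshev.theta Y / Y + Chebyshev.theta X / X| ≤ ε * ∑ n ∈ Ioc X Y, 1 / (n : ℝ) := by
  induction Y, hY using Nat.le_induction with
  | base => simp
  | succ Y hY ih =>
    have y1 : (1 : ℝ) ≤ Y := by exact_mod_cast hX.trans hY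
    rw [sum_Ioc_succ_top hY, sum_Ioc_succ_top hY, theta_succ]
    have a := h Y hY
    have e : ∀ S T : ℝ, S + lp (Y + 1) / ((Y + 1 : ℕ) : ℝ) - (T + 1 / ((Y + 1 : ℕ) : ℝ)) -
        (Chebyshev.theta Y + lp (Y + 1)) / ((Y + 1 : ℕ) : ℝ) + Chebyshev.theta X / X =
        (S - T - Chebyshev.theta Y / Y + Chebyshev.theta X / X) +
          (Chebyshev.theta Y / Y - 1) * (1 / ((Y + 1 : ℕ) : ℝ)) := fun S T => by
      push_cast; field_simp; ring
    rw [e, mul_add]
    refine (abs_add_le _ _).trans (add_le_add ih ?_)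
    rw [abs_mul, abs_of_nonneg (by positivity : 0 ≤ 1 / ((Y + 1 : ℕ) : ℝ))]
    gcongr

lemma lp_block : Tendsto (fun m => ∑ n ∈ Ioc (EE m) (EE (m + 1)), lp n / n) atTop (𝓝 1) := by
  have t := pnt_theta.comp tendsto_natCast_atTop_atTop
  have t1 := t.comp EE_top
  have h : Tendsto (fun m => ∑ n ∈ Ioc (EE m) (EE (m + 1)), lp n / n -
      ∑ n ∈ Ioc (EE m) (EE (m + 1)), 1 / (n : ℝ) - Chebyshev.theta (EE (m + 1)) / EE (m + 1) +
      Chebyshev.theta (EE m) / EE m) atTop (𝓝 0) := by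
    rw [Metric.tendsto_nhds]
    intro e he
    obtain ⟨X, hX⟩ := Metric.tendsto_atTop.mp t (e / 4) (by positivity)
    filter_upwards [EE_top.eventually_ge_atTop X, harm_block.eventually_le_const one_lt_two] with
      m h1 h2
    rw [dist_zero_right, norm_eq_abs]
    refine (abel (ε := e / 4) (EE_pos m) (fun n hn => (hX n (h1.trans hn)).le) _
      (EE_mono (by omega))).trans_lt ?_
    nlinarith
  have := ((h.add harm_block).add (t1.comp (tendsto_add_atTop_nat 1))).sub t1
  rw [zero_add, add_sub_cancel_right] at this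
  refine this.congr fun m => ?_
  simp only [Function.comp]
  ring

/-- Euler factor logarithm on primes -/
noncomputable def hp (s : ℝ) (n : ℕ) : ℝ := if n.Prime then hh ((n : ℝ) ^ (-s) * (1 / n)) else 0

/-- block sums -/
noncomputable def AA (m : ℕ) : ℝ := ∑ n ∈ Ioc (EE m) (EE (m + 1)), hp 0 n

lemma inv_le {n : ℕ} (h : n.Prime) : 1 / (n : ℝ) ≤ 1 / 2 :=
  one_div_le_one_div_of_le (by norm_num) (by exact_mod_cast h.two_le)

lemma hp_zero {n : ℕ} (h : n.Prime) : hp 0 n = hh (1 / n) := by simp [hp, h]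

lemma hp_nonneg (n : ℕ) : 0 ≤ hp 0 n := by
  by_cases h : n.Prime
  · rw [hp_zero h]
    exact le_trans (by positivity) (hh_ge (by linarith [inv_le h]))
  · simp [hp, h]

lemma AA_lim : Tendsto (fun m : ℕ => ((m : ℝ) + 1) * AA m) atTop (𝓝 1) := by
  have r : Tendsto (fun m : ℕ => (1 + 1 / (m : ℝ)) ^ 2) atTop (𝓝 ((1 + 0) ^ 2)) :=
    (tendsto_one_div_atTop_nhds_zero_nat.const_add 1).pow 2
  have u := r.mul lp_block
  simp only [add_zero, one_pow, mul_one] at u
  refine tendsto_of_tendsto_of_tendsto_of_le_of_le' lp_block u (Eventually.of_forall fun m => ?_) ?_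
  · unfold AA
    rw [mul_sum]
    refine sum_le_sum fun n hn => ?_
    by_cases h : n.Prime
    · rw [hp_zero h, lp, if_pos h, div_eq_mul_one_div]
      exact mul_le_mul (EE_mem hn).2.2 (hh_ge (by linarith [inv_le h])) (by positivity)
        (by positivity)
    · simp [lp, hp, h]
  · filter_upwards [eventually_ge_atTop 1] with m hm
    have m1 : (1 : ℝ) ≤ m := by exact_mod_cast hm
    unfold AA
    rw [mul_sum, mul_sum]
    refine sum_le_sum fun n hn => ?_
    obtain ⟨a1, a2, -⟩ := EE_mem hn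
    by_cases h : n.Prime
    · rw [hp_zero h, lp, if_pos h]
      have b : hh (1 / n) ≤ (1 + 1 / (m : ℝ)) * (1 / n) := by
        refine (hh_le (by linarith [inv_le h])).trans ?_
        rw [div_le_iff₀ (by linarith [inv_le h])]
        have : 1 ≤ (1 + 1 / (m : ℝ)) * (1 - 1 / n) := by
          have : 1 / (n : ℝ) ≤ 1 / (m + 1) := one_div_le_one_div_of_le (by linarith) a1
          calc (1 : ℝ) = (1 + 1 / (m : ℝ)) * (1 - 1 / (m + 1)) := by field_simp; ring
            _ ≤ _ := by gcongr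
        have p : 0 < 1 / (n : ℝ) := by apply one_div_pos.mpr; linarith
        nlinarith
      calc _ ≤ ((m : ℝ) + 1) * ((1 + 1 / (m : ℝ)) * (1 / n)) := by gcongr
        _ = (1 + 1 / (m : ℝ)) ^ 2 * (m / n) := by field_simp
        _ ≤ _ := by gcongr
    · simp [lp, hp, h]

lemma tauber (c : ℕ → ℝ) (hc : Tendsto (fun m : ℕ => ((m : ℝ) + 1) * c m) atTop (𝓝 0)) {ε : ℝ}
    (hε : 0 < ε) : ∀ᶠ M : ℕ in atTop, ∀ N, M ≤ N →
    |∑ m ∈ range M, c m - ∑ m ∈ range N, c m * exp (-(1 / M)) ^ (m + 1)| ≤ ε := by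
  have h1 := hc.abs.cesaro
  rw [abs_zero] at h1
  obtain ⟨M0, h2⟩ := Metric.tendsto_atTop.mp hc (ε / 2) (by positivity)
  filter_upwards [h1.eventually_le_const (show 0 < ε / 2 by positivity), eventually_ge_atTop M0,
    eventually_ge_atTop 1] with M h3 h4 h5 N hN
  have M1 : (1 : ℝ) ≤ M := by exact_mod_cast h5
  set r := exp (-(1 / (M : ℝ))) with hr
  have r0 : 0 < r := exp_pos _
  have r1 : r < 1 := by rw [hr, exp_lt_one_iff]; simp; linarith
  rw [← sum_range_add_sum_Ico _ hN, ← sub_sub, ← sum_sub_distrib, ← add_halves ε]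
  refine (abs_sub _ _).trans (add_le_add ?_ ?_)
  · refine (abs_sum_le_sum_abs _ _).trans (le_trans ?_ h3)
    rw [mul_sum]
    refine sum_le_sum fun m _ => ?_
    have a : 1 - r ^ (m + 1) ≤ (M : ℝ)⁻¹ * ((m : ℝ) + 1) := by
      rw [hr, ← exp_nat_mul]
      have := add_one_le_exp (((m + 1 : ℕ) : ℝ) * -(1 / (M : ℝ)))
      push_cast at this ⊢
      rw [one_div] at this ⊢
      linarith
    have b : r ^ (m + 1) ≤ 1 := pow_le_one₀ r0.le r1.le
    rw [← mul_one_sub, abs_mul, abs_mul, abs_of_nonneg (by linarith : 0 ≤ 1 - r ^ (m + 1)),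
      abs_of_nonneg (by positivity : 0 ≤ (m : ℝ) + 1)]
    nlinarith [abs_nonneg (c m)]
  · refine (abs_sum_le_sum_abs _ _).trans ?_
    have a : ∀ m ∈ Ico M N, |c m * r ^ (m + 1)| ≤ ε / 2 / M * r * r ^ m := fun m hm => by
      have b := h2 m (h4.trans (mem_Ico.mp hm).1)
      have m1 : (M : ℝ) ≤ m := by exact_mod_cast (mem_Ico.mp hm).1
      rw [dist_zero_right, norm_eq_abs, abs_mul, abs_of_nonneg (by positivity : 0 ≤ (m : ℝ) + 1)] at b
      rw [abs_mul, abs_of_nonneg (by positivity : 0 ≤ r ^ (m + 1)), mul_assoc, ← pow_succ']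
      gcongr
      rw [le_div_iff₀ (by linarith)]
      nlinarith [abs_nonneg (c m)]
    refine (sum_le_sum a).trans ?_
    rw [← mul_sum]
    have g := geom_sum_Ico_le_of_lt_one (m := M) (n := N) r0.le r1
    have g2 : r ^ M / (1 - r) ≤ 1 / (1 - r) := by
      gcongr
      exact pow_le_one₀ r0.le r1.le
    have g3 : r * (1 / (1 - r)) ≤ M := by
      rw [mul_one_div, div_le_iff₀ (by linarith)]
      have := add_one_le_exp (1 / (M : ℝ))
      have e : r * exp (1 / (M : ℝ)) = 1 := by rw [hr, ← exp_add]; simp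
      have := mul_le_mul_of_nonneg_left this r0.le
      have e2 : (M : ℝ) * (1 / M) = 1 := by field_simp
      nlinarith
    calc _ ≤ ε / 2 / M * r * (1 / (1 - r)) := by gcongr; exact g.trans g2
      _ = ε / 2 / M * (r * (1 / (1 - r))) := by ring
      _ ≤ ε / 2 / M * M := by gcongr
      _ = _ := by field_simp

lemma Z_lim {d : ℝ} (hd : 0 < d) : Tendsto (fun N => ∑ n ∈ Ioc 1 (EE N), hp d n) atTop
    (𝓝 (log (riemannZeta ((1 + d : ℝ) : ℂ)).re)) := by
  have h := ((Complex.continuous_re.tendsto _).comp ((riemannZeta_eulerProduct (s := ((1 + d : ℝ) : ℂ))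
    (by simpa using hd)).comp ((tendsto_add_atTop_nat 1).comp EE_top))).log
    (riemannZeta_re_pos_of_one_lt (by linarith)).ne'
  refine h.congr fun N => ?_
  simp only [Function.comp]
  have e : ∀ p ∈ Nat.primesBelow (EE N + 1), (1 - (p : ℂ) ^ (-((1 + d : ℝ) : ℂ)))⁻¹ =
      ((exp (hp d p) : ℝ) : ℂ) := fun p hp' => by
    have pp := (mem_filter.mp hp').2
    have p0 : (0 : ℝ) < p := by exact_mod_cast pp.pos
    have a : (p : ℝ) ^ (-d) ≤ 1 := rpow_le_one_of_one_le_of_nonpos
      (by exact_mod_cast pp.one_le) (by linarith)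
    have b : (p : ℝ) ^ (-d) * (1 / p) < 1 := by
      have := inv_le pp
      have : 0 < 1 / (p : ℝ) := by positivity
      nlinarith
    rw [hp, if_pos pp, hh, exp_neg, exp_log (by linarith), one_div, ← rpow_neg_one (p : ℝ), ← rpow_add p0,
      Complex.ofReal_inv, Complex.ofReal_sub, Complex.ofReal_cpow p0.le]
    push_cast
    congr 3
    ring
  rw [prod_congr rfl e, ← Complex.ofReal_prod, Complex.ofReal_re, ← exp_sum, log_exp]
  refine sum_subset_zero_on_sdiff ?_ ?_ (fun _ _ => rfl)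
  · intro p hp'
    obtain ⟨a, b⟩ := mem_filter.mp hp'
    exact mem_Ioc.mpr ⟨b.one_lt, by have := mem_range.mp a; omega⟩
  · intro p hp'
    obtain ⟨a, b⟩ := mem_sdiff.mp hp'
    rw [hp, if_neg]
    exact fun e => b (mem_filter.mpr ⟨mem_range.mpr (by have := (mem_Ioc.mp a).2; omega), e⟩)

lemma S_cmp : ∃ K : ℝ, ∀ d : ℝ, 0 < d → ∀ N,
    exp (-d) * ∑ n ∈ Ioc 1 (EE N), hp d n ≤ ∑ m ∈ range N, AA m * exp (-d) ^ (m + 1) ∧
    ∑ m ∈ range N, AA m * exp (-d) ^ (m + 1) ≤ ∑ n ∈ Ioc 1 (EE N), hp d n + K * d := by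
  have hs : Summable (fun n : ℕ => 4 * (n : ℝ) ^ (-(3 / 2) : ℝ)) :=
    (summable_nat_rpow.mpr (by norm_num)).mul_left 4
  refine ⟨∑' n : ℕ, 4 * (n : ℝ) ^ (-(3 / 2) : ℝ), fun d hd N => ⟨?_, ?_⟩⟩
  · rw [← blocks, mul_sum]
    refine sum_le_sum fun m _ => ?_
    rw [AA, mul_sum, sum_mul]
    refine sum_le_sum fun n hn => ?_
    obtain ⟨a1, a2, a3⟩ := EE_mem hn
    by_cases h : n.Prime
    · have n0 : (0 : ℝ) < n := by exact_mod_cast h.pos
      have b : (n : ℝ) ^ (-d) ≤ exp (-d) ^ m := by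
        rw [rpow_def_of_pos n0, ← exp_nat_mul]
        exact exp_le_exp.mpr (by nlinarith)
      have c := hh_mul_le (t := (n : ℝ) ^ (-d)) (x := 1 / n) (by positivity)
        (b.trans (pow_le_one₀ (exp_pos _).le (exp_le_one_iff.mpr (by linarith))))
        (by linarith [inv_le h])
      have p := hp_nonneg n
      rw [hp_zero h] at p ⊢
      rw [hp, if_pos h, pow_succ]
      calc _ ≤ exp (-d) * (exp (-d) ^ m * hh (1 / n)) := by
            gcongr; exact c.trans (by gcongr)
        _ = _ := by ring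
    · simp [hp, h]
  · refine le_trans ?_ (add_le_add le_rfl (mul_le_mul_of_nonneg_right
      (hs.sum_le_tsum (Ioc 1 (EE N)) (fun n _ => by positivity)) hd.le))
    rw [sum_mul, ← sum_add_distrib, ← blocks]
    refine sum_le_sum fun m _ => ?_
    rw [AA, sum_mul]
    refine sum_le_sum fun n hn => ?_
    obtain ⟨a1, a2, a3⟩ := EE_mem hn
    by_cases h : n.Prime
    · have n0 : (0 : ℝ) < n := by exact_mod_cast h.pos
      have b : exp (-d) ^ (m + 1) ≤ (n : ℝ) ^ (-d) := by
        rw [rpow_def_of_pos n0, ← exp_nat_mul]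
        exact exp_le_exp.mpr (by push_cast; nlinarith)
      have c := hh_mul_ge (t := (n : ℝ) ^ (-d)) (x := 1 / n) (rpow_le_one_of_one_le_of_nonpos
        (by exact_mod_cast h.one_le) (by linarith)) (by positivity) (inv_le h)
      have e : 1 - (n : ℝ) ^ (-d) ≤ 2 * (n : ℝ) ^ (1 / 2 : ℝ) * d := by
        have l := log_le_rpow_div n0.le (show (0 : ℝ) < 1 / 2 by norm_num)
        have := add_one_le_exp (log n * -d)
        rw [← rpow_def_of_pos n0] at this
        nlinarith
      have e2 : (n : ℝ) ^ (-(3 / 2) : ℝ) = (n : ℝ) ^ (1 / 2 : ℝ) * (1 / n) ^ 2 := by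
        rw [one_div (n : ℝ), inv_pow, ← rpow_natCast, ← rpow_neg n0.le, ← rpow_add n0]; norm_num
      have p := hp_nonneg n
      rw [hp_zero h] at p ⊢
      rw [hp, if_pos h, e2]
      nlinarith [mul_le_mul_of_nonneg_left b p, mul_le_mul_of_nonneg_left e (sq_nonneg (1 / (n : ℝ)))]
    · simp only [hp, h, if_false, zero_mul, zero_add]; positivity

/-- Mertens' third theorem along the blocks -/
theorem mertens_block : Tendsto (fun M : ℕ => ∑ n ∈ Ioc 1 (EE M), hp 0 n - log M) atTop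
    (𝓝 eulerMascheroniConstant) := by
  obtain ⟨K, hK⟩ := S_cmp
  have d0 : Tendsto (fun M : ℕ => 1 / (M : ℝ)) atTop (𝓝 0) := tendsto_one_div_atTop_nhds_zero_nat
  have dp : ∀ᶠ M : ℕ in atTop, 0 < 1 / (M : ℝ) := by
    filter_upwards [eventually_ge_atTop 1] with M hM
    have : (1 : ℝ) ≤ M := by exact_mod_cast hM
    positivity
  have z : Tendsto (fun M : ℕ => log (riemannZeta ((1 + 1 / (M : ℝ) : ℝ) : ℂ)).re + log (1 / (M : ℝ)))
      atTop (𝓝 0) := by
    have a := (Asymptotics.isLittleO_one_iff ℝ).mp log_riemannZeta_add_log_sub_isLittleO_ofReal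
    have b : Tendsto (fun M : ℕ => 1 + 1 / (M : ℝ)) atTop (𝓝[>] 1) :=
      tendsto_nhdsWithin_iff.mpr ⟨by simpa using d0.const_add 1, dp.mono fun M hM => by simpa using hM⟩
    exact (a.comp b).congr fun M => by simp
  have q : Tendsto (fun M : ℕ => (1 - exp (-(1 / (M : ℝ)))) / (1 / (M : ℝ))) atTop (𝓝 1) := by
    have a : HasDerivAt (fun x : ℝ => -exp (-x)) 1 0 :=
      ((hasDerivAt_neg (0 : ℝ)).exp.neg).congr_deriv (by simp)
    have b := a.tendsto_slope_zero.comp (tendsto_nhdsWithin_iff.mpr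
      ⟨d0, dp.mono fun M hM => hM.ne'⟩)
    refine b.congr fun M => ?_
    simp only [Function.comp, zero_add, neg_zero, exp_zero, smul_eq_mul]
    rw [div_eq_inv_mul]; ring
  have w : Tendsto (fun M : ℕ => log (1 - exp (-(1 / (M : ℝ)))) - log (1 / (M : ℝ))) atTop (𝓝 0) := by
    have a := q.log one_ne_zero
    rw [log_one] at a
    refine a.congr' (dp.mono fun M hM => log_div ?_ hM.ne')
    have : exp (-(1 / (M : ℝ))) < 1 := by rw [exp_lt_one_iff]; linarith
    linarith
  have ml := (continuous_mul_log.tendsto 0).comp d0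
  have up := (z.add w).add (d0.const_mul K)
  have lo := (z.add w).sub (q.mul ((d0.mul z).sub ml))
  simp only [add_zero, mul_zero, sub_zero, zero_mul] at up lo
  have cl : Tendsto (fun m : ℕ => ((m : ℝ) + 1) * (AA m - 1 / ((m : ℝ) + 1))) atTop (𝓝 0) := by
    have := AA_lim.sub_const 1
    rw [sub_self] at this
    exact this.congr fun m => by field_simp
  have main : Tendsto (fun M : ℕ => ∑ m ∈ range M, (AA m - 1 / ((m : ℝ) + 1))) atTop (𝓝 0) := by
    rw [Metric.tendsto_nhds]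
    intro e he
    filter_upwards [tauber _ cl (show 0 < e / 3 by positivity), dp,
      up.eventually_le_const (show 0 < e / 3 by positivity),
      lo.eventually_const_le (show -(e / 3) < 0 by linarith)] with M h1 h2 h3 h4
    have r1 : |exp (-(1 / (M : ℝ)))| < 1 := by
      rw [abs_of_pos (exp_pos _), exp_lt_one_iff]; linarith
    have L := (hasSum_pow_div_log_of_abs_lt_one r1).tendsto_sum_nat
    have Z := Z_lim h2
    have e1 : ∀ N, ∑ m ∈ range N, (AA m - 1 / ((m : ℝ) + 1)) * exp (-(1 / (M : ℝ))) ^ (m + 1) =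
        ∑ m ∈ range N, AA m * exp (-(1 / (M : ℝ))) ^ (m + 1) -
        ∑ m ∈ range N, exp (-(1 / (M : ℝ))) ^ (m + 1) / ((m : ℝ) + 1) := fun N => by
      rw [← sum_sub_distrib]; exact sum_congr rfl fun m _ => by ring
    have u1 := ge_of_tendsto (((Z.add_const (K * (1 / M))).sub L).const_add (e / 3))
      (b := ∑ m ∈ range M, (AA m - 1 / ((m : ℝ) + 1))) (by
        filter_upwards [eventually_ge_atTop M] with N hN
        have := (abs_le.mp (h1 N hN)).2
        have k := (hK _ h2 N).2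
        rw [e1] at this
        linarith)
    have u2 := le_of_tendsto (((Z.const_mul (exp (-(1 / (M : ℝ))))).sub L).const_add (-(e / 3)))
      (b := ∑ m ∈ range M, (AA m - 1 / ((m : ℝ) + 1))) (by
        filter_upwards [eventually_ge_atTop M] with N hN
        have := (abs_le.mp (h1 N hN)).1
        rw [e1] at this
        linarith [(hK _ h2 N).1])
    rw [dist_zero_right, norm_eq_abs, abs_lt]
    simp only [Function.comp] at h3 h4
    have e2 : ∀ a b c t : ℝ, 0 < t → a / t * (t * (b + c) - t * c) = a * b :=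
      fun a b c t ht => by field_simp; ring
    rw [e2 _ _ _ _ h2] at h4
    constructor <;> linarith
  have := main.add tendsto_harmonic_sub_log
  rw [zero_add] at this
  refine this.congr fun M => ?_
  rw [sum_sub_distrib, ← blocks, harmonic]
  push_cast
  simp only [AA, one_div]
  ring

/-- partial Euler products -/
noncomputable def FF (m : ℕ) : ℝ := ∏ i ∈ range m, (1 - 1 / pr i)⁻¹

lemma PP_eq (N : ℕ) : exp (∑ n ∈ range N, hp 0 n) = FF (Nat.count Nat.Prime N) := by
  induction N with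
  | zero => simp [FF]
  | succ N ih =>
    rw [sum_range_succ, exp_add, ih, Nat.count_succ]
    by_cases h : N.Prime
    · rw [if_pos h, FF, FF, prod_range_succ, pr, Nat.nth_count h, hp_zero h, hh, exp_neg,
        exp_log (by linarith [inv_le h])]
    · simp [hp, h]

/-- Mertens' third theorem -/
theorem mertens : Tendsto (fun m : ℕ => FF m / log m) atTop (𝓝 (exp eulerMascheroniConstant)) := by
  rw [← tendsto_add_atTop_iff_nat 1]
  have lt := tendsto_log_atTop.comp pr_top
  set M : ℕ → ℕ := fun m => ⌊log (pr m)⌋₊ with hM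
  have Mt : Tendsto M atTop atTop := tendsto_nat_floor_atTop.comp lt
  have b := (continuous_exp.tendsto _).comp mertens_block
  have r1 := (((tendsto_nat_floor_div_atTop (R := ℝ)).comp lt).div pr_log one_ne_zero)
  have r2 := ((((tendsto_nat_floor_div_atTop (R := ℝ)).comp lt).add lt.inv_tendsto_atTop).div
    pr_log one_ne_zero)
  have lo := (b.comp Mt).mul r1
  have up := (b.comp ((tendsto_add_atTop_nat 1).comp Mt)).mul r2
  simp only [add_zero, div_one, mul_one] at lo up
  have key : ∀ m, FF (m + 1) = exp (∑ n ∈ Ioc 1 (Nat.nth Nat.Prime m), hp 0 n) := fun m => by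
    have a := PP_eq (Nat.nth Nat.Prime m + 1)
    rw [Nat.count_succ, if_pos (Nat.prime_nth_prime m),
      Nat.count_nth_of_infinite Nat.infinite_setOfPred_prime] at a
    rw [← a]
    congr 1
    symm
    refine sum_subset_zero_on_sdiff ?_ ?_ (fun _ _ => rfl)
    · intro p hp'
      exact mem_range.mpr (by have := (mem_Ioc.mp hp').2; omega)
    · intro p hp'
      obtain ⟨a, b⟩ := mem_sdiff.mp hp'
      rw [hp, if_neg]
      exact fun e => b (mem_Ioc.mpr ⟨e.one_lt, by have := mem_range.mp a; omega⟩)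
  have mono : ∀ a b : ℕ, a ≤ b → exp (∑ n ∈ Ioc 1 a, hp 0 n) ≤ exp (∑ n ∈ Ioc 1 b, hp 0 n) :=
    fun a b h => exp_le_exp.mpr (sum_le_sum_of_subset_of_nonneg (Ioc_subset_Ioc_right h)
      (fun n _ _ => hp_nonneg n))
  refine tendsto_of_tendsto_of_tendsto_of_le_of_le' lo up ?_ ?_
  all_goals
    filter_upwards [Mt.eventually_ge_atTop 1, eventually_ge_atTop 1] with m h1 h2
    have p := pr_ge m
    have m1 : (1 : ℝ) ≤ m := by exact_mod_cast h2
    have M1 : (1 : ℝ) ≤ M m := by exact_mod_cast h1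
    have q := log_pos (show 1 < pr m by linarith)
    have q2 := log_pos (show 1 < (m : ℝ) + 1 by linarith)
    simp only [Function.comp, Pi.div_apply, Pi.inv_apply, key]
    rw [exp_sub, exp_log (by push_cast; linarith)]
  · have a : EE (M m) ≤ Nat.nth Nat.Prime m := by
      have := (le_log_iff_exp_le (by linarith)).mp (Nat.floor_le q.le)
      have h3 : (EE (M m) : ℝ) ≤ (Nat.nth Nat.Prime m : ℝ) :=
        (Nat.floor_le (exp_pos _).le).trans this
      exact_mod_cast h3
    calc _ = exp (∑ n ∈ Ioc 1 (EE (M m)), hp 0 n) / log ((m : ℝ) + 1) := by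
          change _ / (M m : ℝ) * ((M m : ℝ) / _ / _) = _
          field_simp
      _ ≤ _ := by push_cast; gcongr ?_ / _; exact mono _ _ a
  · have a : Nat.nth Nat.Prime m ≤ EE (M m + 1) := by
      apply Nat.le_floor
      have := (log_le_iff_le_exp (by linarith)).mp (Nat.lt_floor_add_one (log (pr m))).le
      push_cast
      exact this
    calc _ ≤ exp (∑ n ∈ Ioc 1 (EE (M m + 1)), hp 0 n) / log ((m : ℝ) + 1) := by
          push_cast; gcongr ?_ / _; exact mono _ _ a
      _ = _ := by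
          change _ = _ / ((M m + 1 : ℕ) : ℝ) * (((M m : ℝ) / _ + _) / _)
          push_cast
          field_simp

end Pool.Agent.H.MP_c6faf2_co
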