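import Pool.Agent.H.MP_c6faf2_co.B

set_option autoImplicit false
set_option linter.unusedSimpArgs false

namespace Pool.Agent.H.MP_c6faf2_co
open Finset Filter Topology PowerSeries
open scoped PowerSeries.WithPiTopology

/-- reciprocal primes -/
noncomputable def xx (i : ℕ) : ℝ := 1 / pr i

lemma xx_pos (i : ℕ) : 0 < xx i := by
  have := pr_ge i
  exact one_div_pos.mpr (by have : (0 : ℝ) ≤ i := by positivity
                            linarith)

lemma xx_le (i : ℕ) : xx i ≤ 1 / ((i : ℝ) + 2) := one_div_le_one_div_of_le (by positivity) (pr_ge i)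

lemma xx_lt (i : ℕ) : xx i < 1 :=
  (xx_le i).trans_lt ((div_lt_one (by positivity)).mpr (by have : (0 : ℝ) ≤ i := by positivity
                                                           linarith))

/-- one geometric factor -/
noncomputable def gg (i : ℕ) : ℝ⟦X⟧ :=
  PowerSeries.mk fun n => if (i + 1) ∣ n then xx i ^ (n / (i + 1)) else 0

/-- its ratio -/
noncomputable def yy (i : ℕ) : ℝ⟦X⟧ := C (xx i) * X ^ (i + 1)

lemma coeff_yy (i n : ℕ) (f : ℝ⟦X⟧) : coeff n (yy i * f) =
    if i + 1 ≤ n then xx i * coeff (n - (i + 1)) f else 0 := by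
  rw [yy, mul_assoc, coeff_C_mul, coeff_X_pow_mul', mul_ite, mul_zero]

lemma gg_eq (i : ℕ) : gg i = 1 + yy i * gg i := by
  ext n
  rw [map_add, coeff_yy, coeff_one]
  simp only [gg, coeff_mk]
  by_cases h : i + 1 ≤ n
  · obtain ⟨k, rfl⟩ := Nat.exists_eq_add_of_le h
    rw [if_pos h, if_neg (show i + 1 + k ≠ 0 by omega), zero_add, Nat.add_sub_cancel_left,
      Nat.add_div_left _ (by omega)]
    simp only [Nat.dvd_add_right (dvd_refl (i + 1))]
    split_ifs
    · ring
    · simp
  · rw [if_neg h, add_zero]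
    rcases Nat.eq_zero_or_pos n with rfl | hn
    · simp
    · rw [if_neg (fun e => h (Nat.le_of_dvd hn e)), if_neg hn.ne']

lemma gg_mul (i : ℕ) : (1 - yy i) * gg i = 1 := by
  rw [sub_mul, one_mul, sub_eq_iff_eq_add]; exact gg_eq i

/-- partial products -/
noncomputable def GG (m : ℕ) : ℝ⟦X⟧ := ∏ i ∈ range m, gg i

/-- coefficients -/
noncomputable def cc (m n : ℕ) : ℝ := coeff n (GG m)

lemma cc_succ (m n : ℕ) : cc (m + 1) n = cc m n +
    if m + 1 ≤ n then xx m * cc (m + 1) (n - (m + 1)) else 0 := by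
  have : GG (m + 1) = GG m + yy m * GG (m + 1) := by
    rw [GG, prod_range_succ]
    conv_lhs => rw [gg_eq]
    unfold GG; ring
  unfold cc
  rw [← coeff_yy, ← map_add, ← this]

lemma cc_zero (n : ℕ) : cc 0 n = if n = 0 then 1 else 0 := by simp [cc, GG, coeff_one]

lemma cc_nonneg (m n : ℕ) : 0 ≤ cc m n := by
  induction m generalizing n with
  | zero => rw [cc_zero]; split_ifs <;> norm_num
  | succ m ih =>
    induction n using Nat.strong_induction_on with
    | _ n ih2 =>
      rw [cc_succ]
      refine add_nonneg (ih n) ?_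
      split_ifs with h
      · exact mul_nonneg (xx_pos m).le (ih2 _ (by omega))
      · exact le_rfl

lemma cc_mono (n : ℕ) : Monotone (fun m => cc m n) := monotone_nat_of_le_succ fun m => by
  rw [cc_succ]
  refine le_add_of_nonneg_right ?_
  split_ifs
  · exact mul_nonneg (xx_pos m).le (cc_nonneg _ _)
  · exact le_rfl

lemma cc_stab {m n : ℕ} (h : n ≤ m) : cc m n = cc n n := by
  induction m, h using Nat.le_induction with
  | base => rfl
  | succ m h ih => rw [cc_succ, if_neg (by omega), add_zero, ih]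

/-- the sum over partitions -/
noncomputable def ff (n : ℕ) : ℝ :=
  ∑ l : n.Partition, 1 / (((l.parts.map fun i => Nat.nth Nat.Prime (i - 1)).prod : ℕ) : ℝ)

lemma ff_eq {m n : ℕ} (h : n ≤ m) : ff n = cc m n := by
  have h1 := Nat.Partition.hasProd_genFun (R := ℝ) (fun i c => xx (i - 1) ^ c)
  have e : ∀ i, 1 + ∑' j, xx (i + 1 - 1) ^ (j + 1) • (X : ℝ⟦X⟧) ^ ((i + 1) * (j + 1)) = gg i := by
    intro i
    have c0 : constantCoeff (yy i) = 0 := by simp [yy]
    have a := WithPiTopology.tsum_pow_mul_one_sub_of_constantCoeff_eq_zero c0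
    rw [(WithPiTopology.summable_pow_of_constantCoeff_eq_zero c0).tsum_eq_zero_add, pow_zero] at a
    have b : ∀ j, xx (i + 1 - 1) ^ (j + 1) • (X : ℝ⟦X⟧) ^ ((i + 1) * (j + 1)) = yy i ^ (j + 1) :=
      fun j => by rw [yy, mul_pow, ← map_pow, ← pow_mul, smul_eq_C_mul]; rfl
    simp only [b]
    linear_combination gg i * a - (1 + ∑' (b : ℕ), yy i ^ (b + 1)) * gg_mul i
  simp only [e] at h1
  have h2 := ((WithPiTopology.continuous_coeff ℝ n).tendsto _).comp h1.tendsto_prod_nat
  have h3 : Tendsto (fun k => cc k n) atTop (𝓝 (cc n n)) :=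
    tendsto_const_nhds.congr' ((eventually_ge_atTop n).mono fun k hk => (cc_stab hk).symm)
  rw [cc_stab h, ← tendsto_nhds_unique h2 h3, Nat.Partition.coeff_genFun]
  refine sum_congr rfl fun l _ => ?_
  simp only [Finsupp.prod, Multiset.toFinsupp_support, Multiset.toFinsupp_apply]
  rw [prod_multiset_map_count]
  push_cast
  rw [one_div, ← prod_inv_distrib]
  exact prod_congr rfl fun i _ => by rw [xx, pr, one_div, inv_pow]

lemma ff_nonneg (n : ℕ) : 0 ≤ ff n := by rw [ff_eq le_rfl]; exact cc_nonneg _ _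

lemma der_gg (i : ℕ) : X * d⁄dX ℝ (gg i) = gg i * (C ((i : ℝ) + 1) * (gg i - 1)) := by
  have h1 : X * d⁄dX ℝ (yy i) = C ((i : ℝ) + 1) * yy i := by
    rw [yy, Derivation.leibniz, derivative_C, derivative_pow, derivative_X]
    simp only [smul_eq_mul, map_add, map_natCast, map_one, Nat.add_sub_cancel]
    push_cast
    ring
  have h2 := congrArg (fun f => X * d⁄dX ℝ f) (gg_mul i)
  simp only [Derivation.leibniz, map_sub, derivative_one, smul_eq_mul] at h2
  have h3 := gg_mul i
  have h4 := gg_eq i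
  linear_combination gg i * h2 - X * d⁄dX ℝ (gg i) * h3 + gg i * gg i * h1 -
    gg i * C ((i : ℝ) + 1) * h4

lemma der_GG (m : ℕ) : X * d⁄dX ℝ (GG m) =
    GG m * ∑ i ∈ range m, C ((i : ℝ) + 1) * (gg i - 1) := by
  induction m with
  | zero => simp [GG]
  | succ m ih =>
    rw [sum_range_succ, GG, prod_range_succ, Derivation.leibniz]
    simp only [smul_eq_mul]
    unfold GG at ih
    linear_combination (∏ i ∈ range m, gg i) * der_gg m + gg m * ih

/-- logarithmic derivative coefficients -/
noncomputable def bb (k : ℕ) : ℝ :=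
  ∑ i ∈ range k, ((i : ℝ) + 1) * if (i + 1) ∣ k then xx i ^ (k / (i + 1)) else 0

lemma bb_nonneg (k : ℕ) : 0 ≤ bb k := sum_nonneg fun i _ => mul_nonneg (by positivity) (by
  split_ifs
  · exact (pow_pos (xx_pos i) _).le
  · exact le_rfl)

lemma recur (n : ℕ) : n * ff n = ∑ j ∈ range n, ff j * bb (n - j) := by
  have h := congrArg (coeff n) (der_GG n)
  have e : coeff n (X * d⁄dX ℝ (GG n)) = n * ff n := by
    rw [ff_eq le_rfl]
    cases n with
    | zero => simp
    | succ n => rw [coeff_succ_X_mul, coeff_derivative, cc]; push_cast; ring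
  rw [e, coeff_mul, Nat.sum_antidiagonal_eq_sum_range_succ_mk, sum_range_succ] at h
  have z : coeff (n - n) (∑ i ∈ range n, C ((i : ℝ) + 1) * (gg i - 1)) = 0 := by
    rw [Nat.sub_self, map_sum]
    exact sum_eq_zero fun i _ => by rw [coeff_C_mul, map_sub, gg, coeff_mk]; simp
  rw [h, z, mul_zero, add_zero]
  refine sum_congr rfl fun j hj => ?_
  have hj' := mem_range.mp hj
  rw [ff_eq hj'.le, map_sum]
  congr 1
  symm
  refine sum_subset_zero_on_sdiff (range_subset_range.mpr (by omega)) (fun i hi => ?_) (fun i _ => ?_)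
  · have := (mem_sdiff.mp hi).2
    rw [mem_range] at this
    rw [coeff_C_mul, map_sub, gg, coeff_mk, coeff_one, if_neg, if_neg (by omega)]
    · simp
    · exact fun e => this (Nat.le_of_dvd (by omega) e)
  · rw [coeff_C_mul, map_sub, gg, coeff_mk, coeff_one, if_neg (show n - j ≠ 0 by omega), sub_zero]

/-- tails -/
noncomputable def RR (m L : ℕ) : ℝ := FF m - ∑ j ∈ range L, cc m j

lemma FF_succ (m : ℕ) : FF (m + 1) = FF m + xx m * FF (m + 1) := by
  have := xx_lt m
  rw [FF, prod_range_succ, ← FF, ← xx]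
  have : 1 - xx m ≠ 0 := by linarith
  field_simp
  ring

lemma FF_pos (m : ℕ) : 0 < FF m :=
  prod_pos fun i _ => inv_pos.mpr (by linarith [xx_lt i, show xx i = 1 / pr i from rfl])

lemma RR_succ (m L : ℕ) : RR (m + 1) L = RR m L + xx m * RR (m + 1) (L - (m + 1)) := by
  induction L with
  | zero => simpa [RR] using FF_succ m
  | succ L ih =>
    unfold RR at *
    rw [sum_range_succ, sum_range_succ, cc_succ m L]
    split_ifs with h
    · rw [show L + 1 - (m + 1) = L - (m + 1) + 1 by omega, sum_range_succ]; linarith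
    · rw [show L + 1 - (m + 1) = L - (m + 1) by omega]; linarith

lemma RR_zero (L : ℕ) : RR 0 (L + 1) = 0 := by
  simp [RR, FF, cc_zero]

lemma RR_nonneg (m L : ℕ) : 0 ≤ RR m L := by
  have z : ∀ m, 0 ≤ RR m 0 := fun m => by simpa [RR] using (FF_pos m).le
  induction m generalizing L with
  | zero => cases L with
    | zero => exact z 0
    | succ L => rw [RR_zero]
  | succ m ih =>
    induction L using Nat.strong_induction_on with
    | _ L ih2 =>
      rcases Nat.eq_zero_or_pos L with rfl | h
      · exact z _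
      · rw [RR_succ]
        exact add_nonneg (ih L) (mul_nonneg (xx_pos m).le (ih2 _ (by omega)))

lemma RR_sum (m N : ℕ) : ∑ L ∈ range N, RR m (L + 1) ≤ m * FF m := by
  induction m with
  | zero => simp [RR_zero]
  | succ m ih =>
    have h1 : ∑ L ∈ range N, RR (m + 1) (L + 1 - (m + 1)) ≤
        (m + 1) * FF (m + 1) + ∑ L ∈ range N, RR (m + 1) (L + 1) := by
      refine (sum_le_sum_of_subset_of_nonneg (t := range (m + 1 + N))
        (range_subset_range.mpr (by omega)) (fun _ _ _ => RR_nonneg _ _)).trans (le_of_eq ?_)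
      rw [sum_range_add]
      congr 1
      · rw [sum_congr rfl (g := fun _ => FF (m + 1)) fun L hL => by
          rw [show L + 1 - (m + 1) = 0 by have := mem_range.mp hL; omega]; simp [RR]]
        simp
      · exact sum_congr rfl fun L _ => by congr 1; omega
    have h2 : ∑ L ∈ range N, RR (m + 1) (L + 1) = ∑ L ∈ range N, RR m (L + 1) +
        xx m * ∑ L ∈ range N, RR (m + 1) (L + 1 - (m + 1)) := by
      rw [mul_sum, ← sum_add_distrib]; exact sum_congr rfl fun L _ => RR_succ _ _
    have h3 := mul_le_mul_of_nonneg_left h1 (xx_pos m).le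
    have h4 := FF_succ m
    have h5 := FF_pos (m + 1)
    have h6 : xx m * (m + 2) ≤ 1 := by
      have := xx_le m
      rwa [le_div_iff₀ (by positivity)] at this
    have h7 := xx_lt m
    apply le_of_mul_le_mul_left _ (show 0 < 1 - xx m by linarith)
    push_cast
    have h8 : FF m = (1 - xx m) * FF (m + 1) := by linarith
    rw [h8] at ih
    nlinarith [mul_le_mul_of_nonneg_right h6 h5.le]

lemma cum_le (N : ℕ) : ∑ j ∈ range N, ff j ≤ FF N := by
  rw [sum_congr rfl fun j hj => ff_eq (mem_range.mp hj).le]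
  linarith [RR_nonneg N N, show RR N N = FF N - ∑ j ∈ range N, cc N j from rfl]

lemma cum_ge (m N : ℕ) (hN : 0 < N) : (1 - m / N) * FF m ≤ ∑ j ∈ range N, ff j := by
  have h1 : ∑ j ∈ range N, cc m j ≤ ∑ j ∈ range N, ff j := sum_le_sum fun j _ => by
    rw [ff_eq (le_max_left j m)]; exact cc_mono j (le_max_right j m)
  have h2 := card_nsmul_le_sum (range N) (fun L => RR m (L + 1)) (RR m N) (fun L hL => by
    unfold RR
    have := sum_le_sum_of_subset_of_nonneg (f := cc m) (s := range (L + 1)) (t := range N)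
      (range_subset_range.mpr (mem_range.mp hL)) (fun _ _ _ => cc_nonneg _ _)
    linarith)
  rw [card_range, nsmul_eq_mul] at h2
  have h3 := h2.trans (RR_sum m N)
  have N0 : (0 : ℝ) < N := by exact_mod_cast hN
  have h4 : RR m N ≤ m / N * FF m := by
    rw [div_mul_eq_mul_div, le_div_iff₀ N0]; linarith
  unfold RR at h4
  linarith

end Pool.Agent.H.MP_c6faf2_co
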