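import Pool.Agent.H.MP_c6faf2_co.C

set_option autoImplicit false
set_option linter.unusedSimpArgs false

namespace Pool.Agent.H.MP_c6faf2_co
open Finset Filter Topology Real

lemma term_le (i j : ℕ) (hj : 2 ≤ j) : ((i : ℝ) + 1) * xx i ^ j ≤
    16 / (((i : ℝ) + 1) * j) ^ 2 + if j = 2 then 2 / (((i : ℝ) + 1) * j) else 0 := by
  obtain ⟨t, rfl⟩ := Nat.exists_eq_add_of_le' (show 1 ≤ j by omega)
  have i0 : (0 : ℝ) ≤ i := by positivity
  have h1 : ((i : ℝ) + 1) * xx i ^ (t + 1) ≤ 1 / ((i : ℝ) + 2) ^ t := by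
    calc _ ≤ ((i : ℝ) + 2) * (1 / ((i : ℝ) + 2)) ^ (t + 1) := by
          gcongr
          · exact (pow_pos (xx_pos i) _).le
          · norm_num
          · exact (xx_pos i).le
          · exact xx_le i
      _ = _ := by rw [one_div_pow]; field_simp; ring
  refine h1.trans ?_
  split_ifs with h
  · have : t = 1 := by omega
    subst this
    refine le_add_of_nonneg_of_le (by positivity) ?_
    rw [div_le_div_iff₀ (by positivity) (by positivity)]
    push_cast
    linarith
  · rw [add_zero, div_le_div_iff₀ (by positivity) (by positivity)]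
    have a := one_add_mul_le_pow (a := (i : ℝ) + 1) (by linarith) (t / 2)
    have b : ((t + 1 : ℕ) : ℝ) ≤ 4 * (t / 2 : ℕ) := by exact_mod_cast (show t + 1 ≤ 4 * (t / 2) by omega)
    have c : (((i : ℝ) + 2) ^ (t / 2)) ^ 2 ≤ ((i : ℝ) + 2) ^ t := by
      rw [← pow_mul]
      exact pow_le_pow_right₀ (by linarith) (by omega)
    rw [show 1 + ((i : ℝ) + 1) = i + 2 by ring] at a
    calc _ ≤ 1 * (4 * ((i : ℝ) + 2) ^ (t / 2)) ^ 2 := by
          gcongr 1 * ?_ ^ 2
          nlinarith
      _ ≤ _ := by rw [mul_pow]; linarith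

lemma bb_bd (k : ℕ) : ((k : ℝ) + 1) * xx k ≤ bb (k + 1) ∧
    bb (k + 1) ≤ ((k : ℝ) + 1) * xx k + 18 / ((k : ℝ) + 1) := by
  unfold bb
  rw [sum_range_succ, if_pos dvd_rfl, Nat.div_self (by omega), pow_one, add_comm (∑ x ∈ range k, _)]
  refine ⟨le_add_of_nonneg_right (sum_nonneg fun i _ => mul_nonneg (by positivity) ?_), ?_⟩
  · split_ifs
    · exact (pow_pos (xx_pos i) _).le
    · exact le_rfl
  gcongr
  have h : ∀ i ∈ range k, (((i : ℝ) + 1) * if (i + 1) ∣ (k + 1) then xx i ^ ((k + 1) / (i + 1)) else 0) ≤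
      16 / ((k : ℝ) + 1) ^ 2 + if i = (k + 1) / 2 - 1 then 2 / ((k : ℝ) + 1) else 0 := by
    intro i hi
    have hi' := mem_range.mp hi
    by_cases d : (i + 1) ∣ (k + 1)
    · obtain ⟨j, hj⟩ := d
      have j2 : 2 ≤ j := by
        by_contra c
        have : j = 0 ∨ j = 1 := by omega
        rcases this with rfl | rfl <;> omega
      have e : (k : ℝ) + 1 = ((i : ℝ) + 1) * j := by exact_mod_cast hj
      rw [if_pos ⟨j, hj⟩, hj, Nat.mul_div_cancel_left _ (by omega), e]
      refine (term_le i j j2).trans (add_le_add le_rfl ?_)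
      by_cases c : j = 2
      · rw [if_pos c, if_pos (by subst c; omega)]
      · rw [if_neg c]; split_ifs <;> positivity
    · rw [if_neg d, mul_zero]; split_ifs <;> positivity
  refine (sum_le_sum h).trans ?_
  rw [sum_add_distrib, sum_const, card_range, nsmul_eq_mul, sum_ite_eq']
  have a : (k : ℝ) * (16 / ((k : ℝ) + 1) ^ 2) ≤ 16 / ((k : ℝ) + 1) := by
    rw [← mul_div_assoc, div_le_div_iff₀ (by positivity) (by positivity)]
    have : (0 : ℝ) ≤ k := by positivity
    nlinarith
  have b : (18 : ℝ) / ((k : ℝ) + 1) = 16 / ((k : ℝ) + 1) + 2 / ((k : ℝ) + 1) := by ring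
  rw [b]
  refine add_le_add a ?_
  split_ifs
  · exact le_rfl
  · positivity

lemma bb_lim : Tendsto (fun k : ℕ => bb k * log k) atTop (𝓝 1) := by
  rw [← tendsto_add_atTop_iff_nat 1]
  have h1 := (isLittleO_log_id_atTop.tendsto_div_nhds_zero.comp
    (tendsto_atTop_add_const_right _ 1 tendsto_natCast_atTop_atTop)).const_mul 18
  have h2 := pr_asymp.add h1
  rw [mul_zero, add_zero] at h2
  refine tendsto_of_tendsto_of_tendsto_of_le_of_le pr_asymp h2 (fun k => ?_) (fun k => ?_)
  all_goals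
    have l : 0 ≤ log ((k : ℝ) + 1) := log_nonneg (by linarith [(Nat.cast_nonneg k : (0 : ℝ) ≤ k)])
    simp only [Function.comp, id]
    push_cast
  · refine le_trans (le_of_eq ?_) (mul_le_mul_of_nonneg_right (bb_bd k).1 l)
    rw [xx]; ring
  · refine le_trans (mul_le_mul_of_nonneg_right (bb_bd k).2 l) (le_of_eq ?_)
    rw [xx]; ring

lemma logn : Tendsto (fun n : ℕ => log n) atTop atTop :=
  tendsto_log_atTop.comp tendsto_natCast_atTop_atTop

lemma bb_zero : Tendsto bb atTop (𝓝 0) := by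
  have := bb_lim.mul logn.inv_tendsto_atTop
  rw [mul_zero] at this
  refine this.congr' ((logn.eventually_gt_atTop 0).mono fun k hk => ?_)
  simp only [Pi.inv_apply]
  field_simp

lemma div_lim {K : ℕ} (hK : 0 < K) :
    Tendsto (fun n : ℕ => ((n / K : ℕ) : ℝ) / n) atTop (𝓝 (1 / K)) := by
  have K0 : (0 : ℝ) < K := by exact_mod_cast hK
  have := ((tendsto_nat_floor_div_atTop (R := ℝ)).comp
    (tendsto_natCast_atTop_atTop.atTop_div_const K0)).div_const (K : ℝ)
  refine this.congr fun n => ?_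
  simp only [Function.comp, Nat.floor_div_eq_div]
  field_simp

lemma div_top {K : ℕ} (hK : 0 < K) : Tendsto (fun n : ℕ => n / K) atTop atTop :=
  Nat.tendsto_div_const_atTop hK.ne'

lemma log_div_lim {K : ℕ} (hK : 0 < K) :
    Tendsto (fun n : ℕ => log (n / K : ℕ) / log n) atTop (𝓝 1) := by
  have K0 : (0 : ℝ) < K := by exact_mod_cast hK
  have := (((div_lim hK).log (by positivity)).mul logn.inv_tendsto_atTop).add_const 1
  rw [mul_zero, zero_add] at this
  refine this.congr' ?_
  filter_upwards [logn.eventually_gt_atTop 0, (div_top hK).eventually_gt_atTop 0,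
    eventually_gt_atTop 0] with n h1 h2 h3
  rw [log_div (by exact_mod_cast h2.ne') (by exact_mod_cast h3.ne')]
  simp only [Pi.inv_apply]
  field_simp
  ring

lemma squeeze (a : ℕ → ℝ) (L : ℝ) (l r : ℕ → ℝ) (hl : Tendsto l atTop (𝓝 L))
    (hr : Tendsto r atTop (𝓝 L)) (h : ∀ K, ∃ u v : ℕ → ℝ, Tendsto u atTop (𝓝 (l K)) ∧
      Tendsto v atTop (𝓝 (r K)) ∧ ∀ᶠ n in atTop, u n ≤ a n ∧ a n ≤ v n) :
    Tendsto a atTop (𝓝 L) := by
  rw [tendsto_order]
  constructor
  · intro c hc
    obtain ⟨K, hK⟩ := (hl.eventually_const_lt hc).exists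
    obtain ⟨u, v, h1, -, h3⟩ := h K
    filter_upwards [h1.eventually_const_lt hK, h3] with n a1 a2 using a1.trans_le a2.1
  · intro c hc
    obtain ⟨K, hK⟩ := (hr.eventually_lt_const hc).exists
    obtain ⟨u, v, -, h1, h3⟩ := h K
    filter_upwards [h1.eventually_lt_const hK, h3] with n a1 a2 using a2.2.trans_lt a1

lemma one_sub_lim (L : ℝ) : Tendsto (fun K : ℕ => (1 - 1 / ((K : ℝ) + 1)) * L) atTop (𝓝 L) := by
  simpa using (tendsto_one_div_add_atTop_nhds_zero_nat.const_sub 1).mul_const L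

lemma one_add_lim (L : ℝ) : Tendsto (fun K : ℕ => (1 + 1 / ((K : ℝ) + 1)) * L) atTop (𝓝 L) := by
  simpa using (tendsto_one_div_add_atTop_nhds_zero_nat.const_add 1).mul_const L

lemma cum_lim : Tendsto (fun N : ℕ => (∑ j ∈ range N, ff j) / log N) atTop
    (𝓝 (exp eulerMascheroniConstant)) := by
  refine squeeze _ _ _ _ (one_sub_lim _) tendsto_const_nhds fun K => ?_
  have h := ((div_lim K.succ_pos).const_sub 1).mul
    ((mertens.comp (div_top K.succ_pos)).mul (log_div_lim K.succ_pos))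
  rw [mul_one, Nat.cast_succ] at h
  refine ⟨_, _, h, mertens, ?_⟩
  filter_upwards [logn.eventually_gt_atTop 0, (logn.comp (div_top K.succ_pos)).eventually_gt_atTop 0,
    eventually_gt_atTop 0] with n h1 h2 h3
  simp only [Function.comp] at h2 ⊢
  refine ⟨le_trans (le_of_eq ?_) (div_le_div_of_nonneg_right (cum_ge (n / K.succ) n h3) h1.le),
    div_le_div_of_nonneg_right (cum_le n) h1.le⟩
  field_simp

lemma main_part : Tendsto (fun n : ℕ => ∑ j ∈ range (n / 2), ff j * bb (n - j)) atTop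
    (𝓝 (exp eulerMascheroniConstant)) := by
  refine squeeze _ _ _ _ (one_sub_lim _) (one_add_lim _) fun K => ?_
  have c := cum_lim.comp (div_top two_pos)
  have h := (c.mul (log_div_lim two_pos)).const_mul (1 - 1 / ((K : ℝ) + 1))
  rw [mul_one] at h
  refine ⟨_, _, h, c.const_mul _, ?_⟩
  obtain ⟨k0, hk⟩ := Metric.tendsto_atTop.mp bb_lim (1 / ((K : ℝ) + 1)) (by positivity)
  filter_upwards [logn.eventually_gt_atTop 0, (logn.comp (div_top two_pos)).eventually_gt_atTop 0,
    (div_top two_pos).eventually_ge_atTop (k0 + 1)] with n h1 h2 h3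
  simp only [Function.comp] at h2 ⊢
  have key : ∀ j ∈ range (n / 2), (1 - 1 / ((K : ℝ) + 1)) / log n ≤ bb (n - j) ∧
      bb (n - j) ≤ (1 + 1 / ((K : ℝ) + 1)) / log (n / 2 : ℕ) := fun j hj => by
    have hj' := mem_range.mp hj
    have a := abs_lt.mp (hk (n - j) (by omega))
    have b1 : log (n - j : ℕ) ≤ log n := log_le_log (by exact_mod_cast (by omega))
      (by exact_mod_cast (by omega))
    have b2 : log (n / 2 : ℕ) ≤ log (n - j : ℕ) := log_le_log (by exact_mod_cast (by omega))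
      (by exact_mod_cast (by omega))
    have p := bb_nonneg (n - j)
    rw [div_le_iff₀ h1, le_div_iff₀ h2]
    constructor <;> nlinarith [mul_le_mul_of_nonneg_left b1 p, mul_le_mul_of_nonneg_left b2 p]
  constructor
  · refine le_trans (le_of_eq ?_) (sum_le_sum fun j hj =>
      mul_le_mul_of_nonneg_left (key j hj).1 (ff_nonneg j))
    rw [← sum_mul]; field_simp
  · refine le_trans (sum_le_sum fun j hj =>
      mul_le_mul_of_nonneg_left (key j hj).2 (ff_nonneg j)) (le_of_eq ?_)
    rw [← sum_mul]; field_simp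

lemma del_lim : Tendsto (fun n : ℕ => (∑ k ∈ range (n + 1), bb k) / (n / 2 : ℕ)) atTop (𝓝 0) := by
  have a := bb_zero.cesaro.comp (tendsto_add_atTop_nat 1)
  have b := (tendsto_one_div_atTop_nhds_zero_nat.const_add (1 : ℝ)).div (div_lim two_pos) (by norm_num)
  have c := a.mul b
  rw [zero_mul] at c
  refine c.congr' ((eventually_ge_atTop 2).mono fun n hn => ?_)
  have n0 : (0 : ℝ) < n := by exact_mod_cast (by omega)
  have n1 : (0 : ℝ) < (n / 2 : ℕ) := by exact_mod_cast (by omega)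
  simp only [Function.comp, Pi.div_apply]
  rw [Nat.cast_add_one]
  field_simp

lemma rest_le {n : ℕ} (hn : 2 ≤ n) {M : ℝ} (hM : 0 ≤ M) (h : ∀ j < n, (j : ℝ) * ff j ≤ M) :
    ∑ j ∈ Ico (n / 2) n, ff j * bb (n - j) ≤ M * ((∑ k ∈ range (n + 1), bb k) / (n / 2 : ℕ)) := by
  have n1 : (0 : ℝ) < (n / 2 : ℕ) := by exact_mod_cast (by omega)
  rw [← sum_range_reflect, ← mul_div_assoc, mul_div_right_comm, mul_sum]
  refine le_trans (sum_le_sum fun j hj => ?_) (sum_le_sum_of_subset_of_nonneg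
    (fun j hj => mem_range.mpr (by have := (mem_Ico.mp hj).2; omega))
    (fun j _ _ => mul_nonneg (by positivity) (bb_nonneg _)))
  obtain ⟨a, b⟩ := mem_Ico.mp hj
  rw [Nat.add_sub_cancel]
  refine mul_le_mul_of_nonneg_right ?_ (bb_nonneg _)
  rw [le_div_iff₀ n1, mul_comm]
  exact (mul_le_mul_of_nonneg_right (by exact_mod_cast a) (ff_nonneg j)).trans (h j b)

theorem final : Tendsto (fun n : ℕ => (n : ℝ) * ff n) atTop (𝓝 (exp eulerMascheroniConstant)) := by
  set L := exp eulerMascheroniConstant + 1 with hL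
  have L0 : 0 < L := by positivity
  obtain ⟨n0, h0⟩ := eventually_atTop.mp ((main_part.eventually_le_const
    (show exp eulerMascheroniConstant < L by linarith)).and
    ((del_lim.eventually_le_const (show (0 : ℝ) < 1 / 2 by norm_num)).and (eventually_ge_atTop 2)))
  set M := 2 * L + ∑ j ∈ range n0, (j : ℝ) * ff j with hM
  have p : ∀ j : ℕ, 0 ≤ (j : ℝ) * ff j := fun j => mul_nonneg (by positivity) (ff_nonneg j)
  have s0 : 0 ≤ ∑ j ∈ range n0, (j : ℝ) * ff j := sum_nonneg fun j _ => p j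
  have M0 : 0 ≤ M := by linarith
  have sp : ∀ n : ℕ, (n : ℝ) * ff n = ∑ j ∈ range (n / 2), ff j * bb (n - j) +
      ∑ j ∈ Ico (n / 2) n, ff j * bb (n - j) := fun n => by
    rw [recur, sum_range_add_sum_Ico _ (Nat.div_le_self n 2)]
  have bd : ∀ n : ℕ, (n : ℝ) * ff n ≤ M := fun n => by
    induction n using Nat.strong_induction_on with
    | _ n ih =>
      rcases lt_or_ge n n0 with h | h
      · linarith [single_le_sum (f := fun j : ℕ => (j : ℝ) * ff j) (fun j _ => p j) (mem_range.mpr h)]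
      · obtain ⟨a, b, c⟩ := h0 n h
        have := rest_le c M0 ih
        rw [sp]
        nlinarith
  have up := main_part.add (del_lim.const_mul M)
  rw [mul_zero, add_zero] at up
  refine tendsto_of_tendsto_of_tendsto_of_le_of_le' main_part up (Eventually.of_forall fun n => ?_)
    ((eventually_ge_atTop 2).mono fun n hn => ?_)
  · rw [sp]
    exact le_add_of_nonneg_right (sum_nonneg fun j _ => mul_nonneg (ff_nonneg _) (bb_nonneg _))
  · rw [sp]
    exact add_le_add le_rfl (rest_le hn M0 fun j _ => bd j)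

end Pool.Agent.H.MP_c6faf2_co
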